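import Mathlib

/-!
# The three inequalities (MP_1780a9_co)

* `core_same`: the determinant if the two first differing levels have the same parity;
* `core_diff`: the same for different parities;
* `main_ge`: the main term `Δ_b E_(a+1) - E_a Δ_(b+1)` is at least `1/q`, because it is a multiple of
  `1/q` and `q` times it is `Δ_b E_a ((q_a + p_a + 2 a M) - (p'_b + p_b + 2 b M))` modulo `q`.
-/

namespace Pool.Agent.EDA

theorem abs_le_four {a b c d B : ℝ} (ha : |a| ≤ B) (hb : |b| ≤ B) (hc : |c| ≤ B) (hd : |d| ≤ B) :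
    |a + b - c - d| ≤ 4 * B := by
  rw [abs_le] at *
  constructor <;> linarith [ha.1, ha.2, hb.1, hb.2, hc.1, hc.2, hd.1, hd.2]

theorem abs_mul_le {a b A B : ℝ} (ha : |a| ≤ A) (hb : |b| ≤ B) : |a * b| ≤ A * B := by
  rw [abs_mul]
  exact mul_le_mul ha hb (abs_nonneg _) ((abs_nonneg _).trans ha)

theorem core_same {x M q A A' E E' u v u' v' : ℝ} (hx0 : 0 ≤ x) (hx2 : x ≤ 1 / 2)
    (hx : 12 * M ^ 2 * x ≤ 1 / (2 * q))
    (hA : |A| ≤ M) (hA' : |A'| ≤ M) (hE : |E| ≤ M) (hE' : |E'| ≤ M)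
    (hu : |u| ≤ 2 * M) (hv : |v| ≤ 2 * M) (hu' : |u'| ≤ 2 * M) (hv' : |v'| ≤ 2 * M)
    (hmain : 1 / q ≤ |A * E' - E * A'|) :
    1 / (2 * q) ≤ |(A + x * u) * (E' + x * v') - (E + x * u') * (A' + x * v)| := by
  have e : (A + x * u) * (E' + x * v') - (E + x * u') * (A' + x * v) =
      (A * E' - E * A') + (x * (A * v' + u * E' - E * v - u' * A') +
        x ^ 2 * (u * v' - u' * v)) := by ring
  have h1 : |A * v' + u * E' - E * v - u' * A'| ≤ 4 * (2 * M ^ 2) := by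
    apply abs_le_four
    · exact (abs_mul_le hA hv').trans (le_of_eq (by ring))
    · exact (abs_mul_le hu hE').trans (le_of_eq (by ring))
    · exact (abs_mul_le hE hv).trans (le_of_eq (by ring))
    · exact (abs_mul_le hu' hA').trans (le_of_eq (by ring))
  have h2 : |u * v' - u' * v| ≤ 8 * M ^ 2 := by
    have h3 := abs_mul_le hu hv'
    have h4 := abs_mul_le hu' hv
    calc |u * v' - u' * v| ≤ |u * v'| + |u' * v| := abs_sub _ _
      _ ≤ 2 * M * (2 * M) + 2 * M * (2 * M) := add_le_add h3 h4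
      _ = 8 * M ^ 2 := by ring
  have h5 : |x * (A * v' + u * E' - E * v - u' * A') + x ^ 2 * (u * v' - u' * v)| ≤
      1 / (2 * q) := by
    refine le_trans ?_ hx
    have h6 : |x * (A * v' + u * E' - E * v - u' * A')| ≤ x * (4 * (2 * M ^ 2)) := by
      rw [abs_mul, abs_of_nonneg hx0]
      exact mul_le_mul_of_nonneg_left h1 hx0
    have h7 : |x ^ 2 * (u * v' - u' * v)| ≤ x ^ 2 * (8 * M ^ 2) := by
      rw [abs_mul, abs_of_nonneg (sq_nonneg x)]
      exact mul_le_mul_of_nonneg_left h2 (sq_nonneg x)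
    have h8 : x ^ 2 * (8 * M ^ 2) ≤ x * (4 * M ^ 2) := by
      have : 0 ≤ x * (8 * M ^ 2) := by positivity
      nlinarith
    calc _ ≤ _ := abs_add_le _ _
      _ ≤ x * (4 * (2 * M ^ 2)) + x ^ 2 * (8 * M ^ 2) := add_le_add h6 h7
      _ ≤ x * (4 * (2 * M ^ 2)) + x * (4 * M ^ 2) := by linarith
      _ = 12 * M ^ 2 * x := by ring
  rw [e]
  have h9 := abs_sub_abs_le_abs_add (A * E' - E * A')
    (x * (A * v' + u * E' - E * v - u' * A') + x ^ 2 * (u * v' - u' * v))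
  have h10 : 1 / q = 1 / (2 * q) + 1 / (2 * q) := by
    rw [← add_div, one_add_one_eq_two, mul_comm 2 q, ← div_div, div_right_comm]
    norm_num
  linarith

theorem core_diff {x M A A' E E' u v u' v' : ℝ} (hM : 1 ≤ M) (hx0 : 0 ≤ x)
    (hx : 64 * M ^ 2 * x ≤ 1) (hA1 : 1 ≤ |A|) (hE1 : 1 ≤ |E|)
    (hA' : |A'| ≤ M) (hE' : |E'| ≤ M)
    (hu : |u| ≤ 2 * M) (hv : |v| ≤ 2 * M) (hu' : |u'| ≤ 2 * M) (hv' : |v'| ≤ 2 * M) :
    1 / 2 ≤ |x * ((A' + x * v) * (E' + x * v')) - (E + x * u') * (A + x * u)| := by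
  have hxM : x * M ≤ 1 / 64 := by nlinarith
  have hx1 : x ≤ 1 / 64 := by nlinarith
  have low : ∀ {z w : ℝ}, 1 ≤ |z| → |w| ≤ 2 * M → 31 / 32 ≤ |z + x * w| := by
    intro z w hz hw
    have h1 := abs_sub_abs_le_abs_add z (x * w)
    have h2 : |x * w| ≤ 1 / 32 := by
      rw [abs_mul, abs_of_nonneg hx0]
      calc x * |w| ≤ x * (2 * M) := mul_le_mul_of_nonneg_left hw hx0
        _ ≤ 1 / 32 := by linarith
    linarith
  have up : ∀ {z w : ℝ}, |z| ≤ M → |w| ≤ 2 * M → |z + x * w| ≤ 2 * M := by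
    intro z w hz hw
    have h2 : |x * w| ≤ 1 / 32 := by
      rw [abs_mul, abs_of_nonneg hx0]
      calc x * |w| ≤ x * (2 * M) := mul_le_mul_of_nonneg_left hw hx0
        _ ≤ 1 / 32 := by linarith
    have := abs_add_le z (x * w)
    linarith
  have h1 : (31 / 32 : ℝ) * (31 / 32) ≤ |(E + x * u') * (A + x * u)| := by
    rw [abs_mul]
    exact mul_le_mul (low hE1 hu') (low hA1 hu) (by norm_num) (abs_nonneg _)
  have h2 : |x * ((A' + x * v) * (E' + x * v'))| ≤ 1 / 16 := by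
    rw [abs_mul, abs_of_nonneg hx0]
    have h3 := abs_mul_le (up hA' hv) (up hE' hv')
    calc x * |(A' + x * v) * (E' + x * v')| ≤ x * (2 * M * (2 * M)) :=
        mul_le_mul_of_nonneg_left h3 hx0
      _ ≤ 1 / 16 := by linarith
  have h4 := abs_sub_abs_le_abs_sub ((E + x * u') * (A + x * u))
    (x * ((A' + x * v) * (E' + x * v')))
  rw [abs_sub_comm]
  linarith

/-- `q` times the phase of the digit `i` at level `t` -/
def g (q M t i : ℕ) : ℕ := (i ^ 2 + 2 * (t * M) * i) % q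

theorem g_eq (q M t i : ℕ) : ∃ h : ℤ, ((g q M t i : ℕ) : ℤ) =
    (i : ℤ) ^ 2 + 2 * ((t : ℤ) * M) * i - q * h := by
  refine ⟨(((i ^ 2 + 2 * (t * M) * i) / q : ℕ) : ℤ), ?_⟩
  have h := Nat.mod_add_div (i ^ 2 + 2 * (t * M) * i) q
  have h2 : ((g q M t i : ℕ) : ℤ) + q * (((i ^ 2 + 2 * (t * M) * i) / q : ℕ) : ℤ) =
      ((i ^ 2 + 2 * (t * M) * i : ℕ) : ℤ) := by
    unfold g
    exact_mod_cast h
  push_cast at h2 ⊢
  linarith

/-- the integer version of the main term does not vanish -/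
theorem main_int {q M K a b : ℕ} (hq : q.Prime) (hqM : 2 * K * M < q) (hab : a ≤ b) (hb : b < K)
    {pa qa pb pb' : ℕ} (h1 : pa < M) (h2 : qa < M) (h3 : pb < M) (h4 : pb' < M)
    (hp : pb ≠ pb') (hpq : pa ≠ qa) (he : a = b → pa = pb ∧ pb' ≠ qa) (n1 n2 : ℤ) :
    ((pb' : ℤ) - pb) * (q * n1 + g q M a qa - g q M a pa) -
      ((qa : ℤ) - pa) * (q * n2 + g q M b pb' - g q M b pb) ≠ 0 := by
  intro h0
  obtain ⟨c1, e1⟩ := g_eq q M a qa
  obtain ⟨c2, e2⟩ := g_eq q M a pa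
  obtain ⟨c3, e3⟩ := g_eq q M b pb'
  obtain ⟨c4, e4⟩ := g_eq q M b pb
  rw [e1, e2, e3, e4] at h0
  obtain ⟨d, rfl⟩ : ∃ d, b = a + d := ⟨b - a, by omega⟩
  have hKM : 2 * (d + 1) * M ≤ 2 * K * M := by
    apply Nat.mul_le_mul_right
    omega
  have hKM2 : 2 * (d * M) + 2 * M < q := by
    have : 2 * (d + 1) * M = 2 * (d * M) + 2 * M := by ring
    omega
  obtain ⟨w, hw⟩ : ∃ w : ℕ, w = d * M := ⟨_, rfl⟩
  rw [← hw] at hKM2
  obtain ⟨β, hβ⟩ : ∃ β : ℤ, β = (qa : ℤ) + pa - pb' - pb - 2 * w := ⟨_, rfl⟩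
  have hwz : (w : ℤ) = d * M := by rw [hw]; push_cast; ring
  have hdvd : (q : ℤ) ∣ ((pb' : ℤ) - pb) * ((qa : ℤ) - pa) * β := by
    refine ⟨((pb' : ℤ) - pb) * (-n1 + c1 - c2) - ((qa : ℤ) - pa) * (-n2 + c3 - c4), ?_⟩
    rw [hβ, hwz]
    push_cast at h0
    linear_combination h0
  have hqp : Prime (q : ℤ) := Nat.prime_iff_prime_int.1 hq
  have small : ∀ z : ℤ, (q : ℤ) ∣ z → |z| < q → z = 0 := fun z h h' =>
    Int.eq_zero_of_abs_lt_dvd h h'
  rcases hqp.dvd_or_dvd hdvd with h5 | h5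
  · rcases hqp.dvd_or_dvd h5 with h6 | h6
    · have := small _ h6 (by rw [abs_lt]; constructor <;> omega)
      omega
    · have := small _ h6 (by rw [abs_lt]; constructor <;> omega)
      omega
  · have h7 := small _ h5 (by rw [hβ, abs_lt]; constructor <;> omega)
    rw [hβ] at h7
    rcases Nat.eq_zero_or_pos d with hd | hd
    · subst hd
      obtain ⟨h8, h9⟩ := he (by omega)
      rw [zero_mul] at hw
      omega
    · have : M ≤ w := by
        rw [hw]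
        exact Nat.le_mul_of_pos_left M hd
      omega

theorem main_ge {q M K a b : ℕ} (hq : q.Prime) (hqM : 2 * K * M < q) (hab : a ≤ b) (hb : b < K)
    {pa qa pb pb' : ℕ} (h1 : pa < M) (h2 : qa < M) (h3 : pb < M) (h4 : pb' < M)
    (hp : pb ≠ pb') (hpq : pa ≠ qa) (he : a = b → pa = pb ∧ pb' ≠ qa) (n1 n2 : ℤ) :
    1 / (q : ℝ) ≤ |((pb' : ℝ) - pb) * (n1 + (g q M a qa : ℝ) / q - (g q M a pa : ℝ) / q) -
      ((qa : ℝ) - pa) * (n2 + (g q M b pb' : ℝ) / q - (g q M b pb : ℝ) / q)| := by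
  have h := main_int hq hqM hab hb h1 h2 h3 h4 hp hpq he n1 n2
  have hq0 : (0 : ℝ) < q := by exact_mod_cast hq.pos
  have h5 := Int.one_le_abs h
  have h6 : (1 : ℝ) ≤ |((pb' : ℝ) - pb) * (q * n1 + g q M a qa - g q M a pa) -
      ((qa : ℝ) - pa) * (q * n2 + g q M b pb' - g q M b pb)| := by exact_mod_cast h5
  have e : ((pb' : ℝ) - pb) * (n1 + (g q M a qa : ℝ) / q - (g q M a pa : ℝ) / q) -
      ((qa : ℝ) - pa) * (n2 + (g q M b pb' : ℝ) / q - (g q M b pb : ℝ) / q) =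
      (((pb' : ℝ) - pb) * (q * n1 + g q M a qa - g q M a pa) -
      ((qa : ℝ) - pa) * (q * n2 + g q M b pb' - g q M b pb)) / q := by
    field_simp
  rw [e, abs_div, abs_of_pos hq0]
  exact div_le_div_of_nonneg_right h6 hq0.le

end Pool.Agent.EDA
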