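import Pool.Agent.EDA.Final

/-!
# An explicit form of the lower bound (MP_1780a9_co)

`exists_radius` with `m = ⌈sqrt (log n / log log n)⌉` and `M = ⌈n^(1/(2m))⌉` gives
`r_k(n) >= n^(-3/2) exp (-38 sqrt (log n * log log n))` for `n ≥ 16`.
-/

namespace Pool.Agent.EDA

open Pool.Agent.EDW

theorem explicit_admissible {n k : ℕ} (hn : 16 ≤ n) (hk : 2 ≤ k) :
    ∃ r : ℝ, (n : ℝ) ^ (-(3 / 2 : ℝ)) *
      Real.exp (-(38 * Real.sqrt (Real.log n * Real.log (Real.log n)))) ≤ r ∧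
      Admissible k n r := by
  have hn16 : (16 : ℝ) ≤ n := by exact_mod_cast hn
  have hn0 : (0 : ℝ) < n := by linarith
  have hn1 : (1 : ℝ) ≤ n := by linarith
  obtain ⟨L, hL⟩ : ∃ L, L = Real.log n := ⟨_, rfl⟩
  obtain ⟨l, hl⟩ : ∃ l, l = Real.log L := ⟨_, rfl⟩
  rw [← hL, ← hl]
  have hlog2 := Real.log_two_gt_d9
  have hlog2' := Real.log_two_lt_d9
  have hL1 : 2.7182818286 < L := by
    have h1 : Real.log 16 ≤ L := by
      rw [hL]
      exact Real.log_le_log (by norm_num) hn16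
    have h2 : Real.log 16 = 4 * Real.log 2 := by
      rw [show (16 : ℝ) = 2 ^ 4 by norm_num, Real.log_pow]
      norm_num
    linarith
  have hL0 : 0 < L := by linarith
  have hl1 : 1 ≤ l := by
    rw [hl, Real.le_log_iff_exp_le hL0]
    exact (Real.exp_one_lt_d9.trans hL1).le
  have hl0 : 0 < l := by linarith
  have hlL : l ≤ L := by
    rw [hl]
    have := Real.log_le_sub_one_of_pos hL0
    linarith
  obtain ⟨G, hG⟩ : ∃ G, G = Real.sqrt (L / l) := ⟨_, rfl⟩
  obtain ⟨S, hS⟩ : ∃ S, S = Real.sqrt (L * l) := ⟨_, rfl⟩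
  rw [← hS]
  have hG2 : G ^ 2 = L / l := by
    rw [hG]
    exact Real.sq_sqrt (by positivity)
  have hG1 : 1 ≤ G := by
    rw [hG]
    apply Real.one_le_sqrt.2
    rw [le_div_iff₀ hl0]
    linarith
  have hG0 : 0 < G := by linarith
  have hGl : G * l = S := by
    rw [hS]
    symm
    rw [Real.sqrt_eq_iff_mul_self_eq (by positivity) (by positivity)]
    have : G * l * (G * l) = G ^ 2 * l ^ 2 := by ring
    rw [this, hG2]
    field_simp
  have hS0 : 0 < S := by rw [← hGl]; positivity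
  have hLS : L = S * G := by
    have : S * G = G ^ 2 * l := by rw [← hGl]; ring
    rw [this, hG2]
    field_simp
  have hGL : G ≤ L := by
    have h1 : G ^ 2 ≤ L := by
      rw [hG2, div_le_iff₀ hl0]
      nlinarith
    nlinarith
  obtain ⟨m, hm⟩ : ∃ m : ℕ, m = ⌈G⌉₊ := ⟨_, rfl⟩
  have hmG : G ≤ m := by rw [hm]; exact Nat.le_ceil G
  have hmG2 : (m : ℝ) ≤ G + 1 := by
    rw [hm]
    exact (Nat.ceil_lt_add_one hG0.le).le
  have hm0 : (0 : ℝ) < m := by linarith
  have hm1 : 1 ≤ m := by exact_mod_cast hm0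
  obtain ⟨t, ht⟩ : ∃ t : ℝ, t = (n : ℝ) ^ (1 / (2 * (m : ℝ))) := ⟨_, rfl⟩
  have ht1 : 1 ≤ t := by
    rw [ht]
    exact Real.one_le_rpow hn1 (by positivity)
  have ht0 : 0 < t := by linarith
  obtain ⟨M, hM⟩ : ∃ M : ℕ, M = ⌈t⌉₊ := ⟨_, rfl⟩
  have hMt : t ≤ M := by rw [hM]; exact Nat.le_ceil t
  have hMt2 : (M : ℝ) ≤ 2 * t := by
    have := Nat.ceil_lt_add_one ht0.le
    rw [← hM] at this
    linarith
  have hM1 : 1 ≤ M := by exact_mod_cast ht1.trans hMt
  have hM0 : (0 : ℝ) < M := by exact_mod_cast hM1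
  have htp : t ^ (2 * m) = n := by
    rw [ht, ← Real.rpow_natCast, ← Real.rpow_mul hn0.le]
    push_cast
    rw [one_div, inv_mul_cancel₀ (by positivity), Real.rpow_one]
  have hnM : n ≤ M ^ (2 * m) := by
    have h1 : (n : ℝ) ≤ (M : ℝ) ^ (2 * m) := by
      rw [← htp]
      exact pow_le_pow_left₀ ht0.le hMt _
    exact_mod_cast h1
  obtain ⟨r, hr, ha⟩ := exists_radius hm1 hM1 hnM hk
  refine ⟨r, le_trans ?_ hr, ha⟩
  have hlogM : Real.log M ≤ Real.log 2 + L / (2 * m) := by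
    calc Real.log M ≤ Real.log (2 * t) := Real.log_le_log hM0 hMt2
      _ = Real.log 2 + Real.log t := Real.log_mul (by norm_num) ht0.ne'
      _ = Real.log 2 + L / (2 * m) := by
          rw [ht, Real.log_rpow hn0, ← hL]
          ring
  have hlogm : Real.log m ≤ Real.log 2 + l := by
    have h1 : (m : ℝ) ≤ 2 * L := by linarith
    calc Real.log m ≤ Real.log (2 * L) := Real.log_le_log hm0 h1
      _ = Real.log 2 + l := by rw [Real.log_mul (by norm_num) hL0.ne', ← hl]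
  have e1 : (n : ℝ) ^ (-(3 / 2 : ℝ)) * Real.exp (-(38 * S)) =
      Real.exp (-(3 / 2) * L - 38 * S) := by
    rw [Real.rpow_def_of_pos hn0, ← hL, ← Real.exp_add]
    congr 1
    ring
  have e2 : (1 / (2048 * (m : ℝ)) / (M : ℝ) ^ 3) ^ (m + 1) =
      Real.exp (-((m + 1) * (11 * Real.log 2 + Real.log m + 3 * Real.log M))) := by
    have h1 : 1 / (2048 * (m : ℝ)) / (M : ℝ) ^ 3 =
        Real.exp (-(11 * Real.log 2 + Real.log m + 3 * Real.log M)) := by
      rw [Real.exp_neg, Real.exp_add, Real.exp_add, Real.exp_log hm0, mul_comm (11 : ℝ),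
        mul_comm (3 : ℝ), Real.exp_mul, Real.exp_mul, Real.exp_log (by norm_num : (0 : ℝ) < 2),
        Real.exp_log hM0]
      norm_num
      ring
    rw [h1, ← Real.exp_nat_mul]
    congr 1
    push_cast
    ring
  rw [e1, e2]
  apply Real.exp_le_exp.2
  have hLm : L / m ≤ S := by
    rw [div_le_iff₀ hm0]
    calc L = S * G := hLS
      _ ≤ S * m := mul_le_mul_of_nonneg_left hmG hS0.le
  have h3 : ((m : ℝ) + 1) * (11 * Real.log 2 + Real.log m + 3 * Real.log M) ≤
      ((m : ℝ) + 1) * (12 * l) + ((m : ℝ) + 1) * (3 * (L / (2 * m))) := by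
    rw [← mul_add]
    apply mul_le_mul_of_nonneg_left _ (by positivity)
    linarith
  have h4 : ((m : ℝ) + 1) * (12 * l) ≤ 36 * S := by
    have h5 : (m : ℝ) + 1 ≤ 3 * G := by linarith
    calc ((m : ℝ) + 1) * (12 * l) ≤ 3 * G * (12 * l) :=
          mul_le_mul_of_nonneg_right h5 (by positivity)
      _ = 36 * (G * l) := by ring
      _ = 36 * S := by rw [hGl]
  have h6 : ((m : ℝ) + 1) * (3 * (L / (2 * m))) = 3 / 2 * L + 3 / 2 * (L / m) := by
    field_simp
  linarith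

theorem rk_explicit {n k : ℕ} (hn : 16 ≤ n) (hk : 2 ≤ k) : (n : ℝ) ^ (-(3 / 2 : ℝ)) *
    Real.exp (-(38 * Real.sqrt (Real.log n * Real.log (Real.log n)))) ≤ rk k n := by
  obtain ⟨r, hr, ha⟩ := explicit_admissible hn hk
  exact hr.trans (le_csSup (bddAbove_admissible (by omega)) ha)

end Pool.Agent.EDA
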