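import Pool.Agent.EDA.Wide

/-!
# The lower bound with exponent 3/2 (MP_1780a9_co)

For `m ≥ 3 / (2 ε)` and `n ≥ 1` take `M = ⌈n^(1/(2m))⌉`, `K = 2 m`, a prime `q` with
`4 m M < q ≤ 8 m M` and `ρ^2 = 1 / (32 q M^2)`. Then `n ≤ M^K` and the admissible radius
`ρ^K / (256 q M^2)` is at least `(c0 / M^3)^(m+1)`, `c0 = 1 / (2048 m)`.
-/

namespace Pool.Agent.EDA

open Pool.Agent.EDW

theorem exists_radius {m M : ℕ} (hm : 1 ≤ m) (hM : 1 ≤ M) {n k : ℕ} (hn : n ≤ M ^ (2 * m))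
    (hk : 2 ≤ k) :
    ∃ r : ℝ, (1 / (2048 * (m : ℝ)) / (M : ℝ) ^ 3) ^ (m + 1) ≤ r ∧ Admissible k n r := by
  have hm1 : (1 : ℝ) ≤ m := by exact_mod_cast hm
  have hM1 : (1 : ℝ) ≤ M := by exact_mod_cast hM
  have hm0 : (0 : ℝ) < m := by linarith
  have hM0 : (0 : ℝ) < M := by linarith
  obtain ⟨q, hq, hq1, hq2⟩ := Nat.exists_prime_lt_and_le_two_mul (2 * (2 * m) * M) (by positivity)
  have hq0 : (0 : ℝ) < q := by exact_mod_cast hq.pos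
  have hq2' : (q : ℝ) ≤ 8 * m * M := by
    have : q ≤ 8 * m * M := hq2.trans (le_of_eq (by ring))
    exact_mod_cast this
  obtain ⟨y, hy⟩ : ∃ y : ℝ, y = 1 / (32 * q * (M : ℝ) ^ 2) := ⟨_, rfl⟩
  have hy0 : 0 < y := by rw [hy]; positivity
  have hp : Par (Real.sqrt y) q M (2 * m) := by
    refine ⟨hq, hq1, hM, Real.sqrt_pos.2 hy0, ?_⟩
    rw [Real.sq_sqrt hy0.le, hy, one_div, inv_mul_cancel₀]
    positivity
  refine ⟨_, ?_, admissible_par hp hn hk⟩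
  rw [pow_mul, Real.sq_sqrt hy0.le]
  have hM3 : (0 : ℝ) < (M : ℝ) ^ 3 := by positivity
  have h1 : 1 / (2048 * (m : ℝ)) / (M : ℝ) ^ 3 ≤ y := by
    rw [hy, div_div]
    apply one_div_le_one_div_of_le (by positivity)
    calc 32 * q * (M : ℝ) ^ 2 ≤ 32 * (8 * m * M) * (M : ℝ) ^ 2 := by gcongr
      _ = 256 * (m * (M : ℝ) ^ 3) := by ring
      _ ≤ 2048 * (m * (M : ℝ) ^ 3) := by
          have : 0 < m * (M : ℝ) ^ 3 := by positivity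
          linarith
      _ = 2048 * m * (M : ℝ) ^ 3 := by ring
  have h2 : 1 / (2048 * (m : ℝ)) / (M : ℝ) ^ 3 ≤ 1 / (256 * q * (M : ℝ) ^ 2) := by
    rw [div_div]
    apply one_div_le_one_div_of_le (by positivity)
    calc 256 * q * (M : ℝ) ^ 2 ≤ 256 * (8 * m * M) * (M : ℝ) ^ 2 := by gcongr
      _ = 2048 * m * (M : ℝ) ^ 3 := by ring
  calc (1 / (2048 * (m : ℝ)) / (M : ℝ) ^ 3) ^ (m + 1) =
      (1 / (2048 * (m : ℝ)) / (M : ℝ) ^ 3) ^ m * (1 / (2048 * (m : ℝ)) / (M : ℝ) ^ 3) :=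
        pow_succ _ _
    _ ≤ y ^ m * (1 / (256 * q * (M : ℝ) ^ 2)) :=
        mul_le_mul (pow_le_pow_left₀ (by positivity) h1 m) h2 (by positivity) (by positivity)
    _ = y ^ m / (256 * q * (M : ℝ) ^ 2) := by ring

theorem exists_admissible (ε : ℝ) (hε : 0 < ε) : ∃ c : ℝ, 0 < c ∧ ∀ n k : ℕ, 1 ≤ n → 2 ≤ k →
    ∃ r : ℝ, c * (n : ℝ) ^ (-(3 / 2 + ε)) ≤ r ∧ Admissible k n r := by
  obtain ⟨m, hm⟩ := exists_nat_ge (3 / (2 * ε) + 1)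
  have hm0 : (0 : ℝ) < m := by
    have : 0 < 3 / (2 * ε) := by positivity
    linarith
  have hm1 : 1 ≤ m := by exact_mod_cast hm0
  have hmε : 3 / (2 * (m : ℝ)) ≤ ε := by
    rw [div_le_iff₀ (by positivity)]
    have h1 : 3 / (2 * ε) ≤ m := by linarith
    rw [div_le_iff₀ (by positivity)] at h1
    linarith
  refine ⟨(1 / (2048 * (m : ℝ)) / 8) ^ (m + 1), by positivity, ?_⟩
  intro n k hn hk
  have hn1 : (1 : ℝ) ≤ n := by exact_mod_cast hn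
  have hn0 : (0 : ℝ) < n := by linarith
  obtain ⟨t, ht⟩ : ∃ t : ℝ, t = (n : ℝ) ^ (1 / (2 * (m : ℝ))) := ⟨_, rfl⟩
  have ht1 : 1 ≤ t := by
    rw [ht]
    exact Real.one_le_rpow hn1 (by positivity)
  have ht0 : 0 < t := by linarith
  obtain ⟨M, hM⟩ : ∃ M : ℕ, M = ⌈t⌉₊ := ⟨_, rfl⟩
  have hMt : t ≤ M := by rw [hM]; exact Nat.le_ceil t
  have hMt2 : (M : ℝ) ≤ 2 * t := by
    have := Nat.ceil_lt_add_one ht0.le
    rw [← hM] at this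
    linarith
  have hM1 : 1 ≤ M := by exact_mod_cast ht1.trans hMt
  have hM0 : (0 : ℝ) < M := by exact_mod_cast hM1
  have htp : t ^ (2 * m) = n := by
    rw [ht, ← Real.rpow_natCast, ← Real.rpow_mul hn0.le]
    push_cast
    rw [one_div, inv_mul_cancel₀ (by positivity), Real.rpow_one]
  have hnM : n ≤ M ^ (2 * m) := by
    have h1 : (n : ℝ) ≤ (M : ℝ) ^ (2 * m) := by
      rw [← htp]
      exact pow_le_pow_left₀ ht0.le hMt _
    exact_mod_cast h1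
  obtain ⟨r, hr, ha⟩ := exists_radius hm1 hM1 hnM hk
  refine ⟨r, le_trans ?_ hr, ha⟩
  have h3 : 1 / (2048 * (m : ℝ)) / 8 * (1 / t ^ 3) ≤ 1 / (2048 * (m : ℝ)) / (M : ℝ) ^ 3 := by
    have h4 : (M : ℝ) ^ 3 ≤ (2 * t) ^ 3 := pow_le_pow_left₀ hM0.le hMt2 3
    have e : 1 / (2048 * (m : ℝ)) / 8 * (1 / t ^ 3) = 1 / (2048 * (m : ℝ)) / (2 * t) ^ 3 := by
      field_simp
      norm_num
    rw [e]
    exact div_le_div_of_nonneg_left (by positivity) (by positivity) h4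
  have h5 : (n : ℝ) ^ (-(3 / 2 + ε)) ≤ (1 / t ^ 3) ^ (m + 1) := by
    have e : (1 / t ^ 3) ^ (m + 1) = (n : ℝ) ^ (-(3 / 2 + 3 / (2 * (m : ℝ)))) := by
      rw [Real.rpow_neg hn0.le, one_div, inv_pow, ← pow_mul, ht, ← Real.rpow_natCast,
        ← Real.rpow_mul hn0.le]
      congr 2
      push_cast
      field_simp
    rw [e]
    exact Real.rpow_le_rpow_of_exponent_le hn1 (by linarith)
  calc (1 / (2048 * (m : ℝ)) / 8) ^ (m + 1) * (n : ℝ) ^ (-(3 / 2 + ε)) ≤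
      (1 / (2048 * (m : ℝ)) / 8) ^ (m + 1) * (1 / t ^ 3) ^ (m + 1) :=
        mul_le_mul_of_nonneg_left h5 (by positivity)
    _ = (1 / (2048 * (m : ℝ)) / 8 * (1 / t ^ 3)) ^ (m + 1) := (mul_pow _ _ _).symm
    _ ≤ (1 / (2048 * (m : ℝ)) / (M : ℝ) ^ 3) ^ (m + 1) :=
        pow_le_pow_left₀ (by positivity) h3 _

theorem rk_lower (ε : ℝ) (hε : 0 < ε) : ∃ c : ℝ, 0 < c ∧ ∀ n k : ℕ, 1 ≤ n → 2 ≤ k →
    BddAbove {r | Admissible k n r} ∧ c * (n : ℝ) ^ (-(3 / 2 + ε)) ≤ rk k n := by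
  obtain ⟨c, hc, h⟩ := exists_admissible ε hε
  refine ⟨c, hc, fun n k hn hk => ⟨bddAbove_admissible hn, ?_⟩⟩
  obtain ⟨r, hr, ha⟩ := h n k hn hk
  exact hr.trans (le_csSup (bddAbove_admissible hn) ha)

end Pool.Agent.EDA
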