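import Mathlib

/-!
# Alternating expansions (MP_1780a9_co)

`H x d m t = d t + x d (t+2) + x^2 d (t+4) + ...` (`m` terms). A point with levels `c 0, c 1, ...`
has the coordinates `H (ρ^2) c m 0` and `ρ * H (ρ^2) c m 1`, so even levels are horizontal and odd
levels are vertical. `even_uv`, `odd_uv`: if all levels below `b` vanish, then one coordinate is
`ρ^b (d b + O(ρ^2))` and the other one `ρ^(b+1) (d (b+1) + O(ρ^2))`.
-/

namespace Pool.Agent.EDA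

/-- `d t + x d (t+2) + x^2 d (t+4) + ...`, `m` terms -/
def H (x : ℝ) (d : ℕ → ℝ) : ℕ → ℕ → ℝ
  | 0, _ => 0
  | m + 1, t => d t + x * H x d m (t + 2)

theorem H_sub (x : ℝ) (d e : ℕ → ℝ) (m t : ℕ) :
    H x (fun s => d s - e s) m t = H x d m t - H x e m t := by
  induction m generalizing t with
  | zero => simp [H]
  | succ m ih =>
    simp only [H, ih]
    ring

theorem H_abs {x B : ℝ} (hx : 0 ≤ x) (hx2 : x ≤ 1 / 2) {d : ℕ → ℝ} (hd : ∀ t, |d t| ≤ B)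
    (m t : ℕ) : |H x d m t| ≤ 2 * B := by
  induction m generalizing t with
  | zero =>
    simp only [H, abs_zero]
    have := (abs_nonneg _).trans (hd 0)
    linarith
  | succ m ih =>
    simp only [H]
    have h1 : |x * H x d m (t + 2)| ≤ 1 / 2 * (2 * B) := by
      rw [abs_mul, abs_of_nonneg hx]
      exact mul_le_mul hx2 (ih _) (abs_nonneg _) (by norm_num)
    calc |d t + x * H x d m (t + 2)| ≤ |d t| + |x * H x d m (t + 2)| := abs_add_le _ _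
      _ ≤ B + 1 / 2 * (2 * B) := add_le_add (hd t) h1
      _ = 2 * B := by ring

theorem H_zeros {x : ℝ} {d : ℕ → ℝ} (s m t : ℕ) (h : ∀ j < s, d (t + 2 * j) = 0) :
    H x d (m + s) t = x ^ s * H x d m (t + 2 * s) := by
  induction s generalizing t with
  | zero => simp
  | succ s ih =>
    have h0 : d t = 0 := by simpa using h 0 (by omega)
    have h1 : ∀ j < s, d (t + 2 + 2 * j) = 0 := by
      intro j hj
      have := h (j + 1) (by omega)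
      rwa [show t + 2 * (j + 1) = t + 2 + 2 * j by ring] at this
    show d t + x * H x d (m + s) (t + 2) = _
    rw [h0, ih (t + 2) h1, show t + 2 + 2 * s = t + 2 * (s + 1) by ring]
    ring

/-- leading zeros, then one more term -/
theorem H_lead {x B : ℝ} (hx : 0 ≤ x) (hx2 : x ≤ 1 / 2) {d : ℕ → ℝ} (hd : ∀ t, |d t| ≤ B)
    (s m t : ℕ) (hm : s < m) (h : ∀ j < s, d (t + 2 * j) = 0) :
    ∃ u : ℝ, |u| ≤ 2 * B ∧ H x d m t = x ^ s * (d (t + 2 * s) + x * u) := by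
  obtain ⟨k, rfl⟩ : ∃ k, m = k + 1 + s := ⟨m - 1 - s, by omega⟩
  refine ⟨H x d k (t + 2 * s + 2), H_abs hx hx2 hd _ _, ?_⟩
  rw [H_zeros s (k + 1) t h]
  rfl

theorem even_uv {ρ B : ℝ} (hx2 : ρ ^ 2 ≤ 1 / 2) {d : ℕ → ℝ} (hd : ∀ t, |d t| ≤ B)
    {b m : ℕ} (hm : b < m) (hz : ∀ t < b, d t = 0) (hb : Even b) :
    ∃ u v : ℝ, |u| ≤ 2 * B ∧ |v| ≤ 2 * B ∧
      H (ρ ^ 2) d m 0 = ρ ^ b * (d b + ρ ^ 2 * u) ∧
      ρ * H (ρ ^ 2) d m 1 = ρ ^ (b + 1) * (d (b + 1) + ρ ^ 2 * v) := by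
  obtain ⟨s, hs⟩ := hb
  obtain ⟨u, hu, eu⟩ := H_lead (sq_nonneg ρ) hx2 hd s m 0 (by omega)
    (fun j hj => hz _ (by omega))
  obtain ⟨v, hv, ev⟩ := H_lead (sq_nonneg ρ) hx2 hd s m 1 (by omega)
    (fun j hj => hz _ (by omega))
  refine ⟨u, v, hu, hv, ?_, ?_⟩
  · rw [eu, ← pow_mul, show 2 * s = b by omega, zero_add]
  · rw [ev, ← pow_mul, show 2 * s = b by omega, show 1 + b = b + 1 by omega, pow_succ]
    ring

theorem odd_uv {ρ B : ℝ} (hx2 : ρ ^ 2 ≤ 1 / 2) {d : ℕ → ℝ} (hd : ∀ t, |d t| ≤ B)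
    {b m : ℕ} (hm : b < m) (hz : ∀ t < b, d t = 0) (hb : Odd b) :
    ∃ u v : ℝ, |u| ≤ 2 * B ∧ |v| ≤ 2 * B ∧
      ρ * H (ρ ^ 2) d m 1 = ρ ^ b * (d b + ρ ^ 2 * u) ∧
      H (ρ ^ 2) d m 0 = ρ ^ (b + 1) * (d (b + 1) + ρ ^ 2 * v) := by
  obtain ⟨s, hs⟩ := hb
  obtain ⟨u, hu, eu⟩ := H_lead (sq_nonneg ρ) hx2 hd s m 1 (by omega)
    (fun j hj => hz _ (by omega))
  obtain ⟨v, hv, ev⟩ := H_lead (sq_nonneg ρ) hx2 hd (s + 1) m 0 (by omega)
    (fun j hj => hz _ (by omega))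
  refine ⟨u, v, hu, hv, ?_, ?_⟩
  · rw [eu, ← pow_mul, hs, show 1 + 2 * s = 2 * s + 1 by omega, pow_succ]
    ring
  · rw [ev, ← pow_mul, show 2 * (s + 1) = b + 1 by omega, zero_add]

end Pool.Agent.EDA
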