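import Pool.Agent.EDA.Horner
import Pool.Agent.EDA.Core

/-!
# The points (MP_1780a9_co)

`cc q M i t` is the coordinate of level `t` of the digit sequence `i`: `i_t` plus the phase
`((i_(t-1)^2 + 2 (t-1) M i_(t-1)) mod q) / q` of the previous digit. `px`, `py`: the coordinates.
`key`: the determinant of three points whose digit sequences first differ at the levels `a ≤ b`.
-/

namespace Pool.Agent.EDA

/-- the level coordinates of a digit sequence -/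
noncomputable def cc (q M : ℕ) (i : ℕ → ℕ) : ℕ → ℝ
  | 0 => i 0
  | t + 1 => i (t + 1) + (g q M t (i t) : ℝ) / q

noncomputable def px (ρ : ℝ) (q M K : ℕ) (i : ℕ → ℕ) : ℝ := H (ρ ^ 2) (cc q M i) K 0

noncomputable def py (ρ : ℝ) (q M K : ℕ) (i : ℕ → ℕ) : ℝ := ρ * H (ρ ^ 2) (cc q M i) K 1

theorem g_lt {q : ℕ} (hq : 0 < q) (M t i : ℕ) : (g q M t i : ℝ) / q ≤ 1 := by
  have h1 : (0 : ℝ) < q := by exact_mod_cast hq
  rw [div_le_one h1]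
  exact_mod_cast (Nat.mod_lt _ hq).le

theorem cc_bd {q M : ℕ} (hq : 0 < q) {i : ℕ → ℕ} (hi : ∀ t, i t < M) (t : ℕ) :
    0 ≤ cc q M i t ∧ cc q M i t ≤ M := by
  cases t with
  | zero =>
    simp only [cc]
    exact ⟨by positivity, by exact_mod_cast (hi 0).le⟩
  | succ t =>
    simp only [cc]
    have h1 : (i (t + 1) : ℝ) + 1 ≤ M := by exact_mod_cast hi (t + 1)
    exact ⟨by positivity, by linarith [g_lt hq M t (i t)]⟩

theorem cc_sub_bd {q M : ℕ} (hq : 0 < q) {i j : ℕ → ℕ} (hi : ∀ t, i t < M) (hj : ∀ t, j t < M)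
    (t : ℕ) : |cc q M i t - cc q M j t| ≤ M := by
  have h1 := cc_bd hq hi t
  have h2 := cc_bd hq hj t
  rw [abs_le]
  constructor <;> linarith [h1.1, h1.2, h2.1, h2.2]

theorem cc_sub_zero {q M : ℕ} {i j : ℕ → ℕ} {b : ℕ} (h : ∀ t < b, i t = j t) :
    ∀ t < b, cc q M j t - cc q M i t = 0 := by
  intro t ht
  cases t with
  | zero => simp only [cc, h 0 ht, sub_self]
  | succ t => simp only [cc, h (t + 1) ht, h t (by omega), sub_self]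

theorem cc_sub_at {q M : ℕ} {i j : ℕ → ℕ} {b : ℕ} (h : ∀ t < b, i t = j t) :
    cc q M j b - cc q M i b = (j b : ℝ) - i b := by
  cases b with
  | zero => rfl
  | succ b =>
    simp only [cc, h b (by omega)]
    ring

theorem cc_sub_next {q M : ℕ} {i j : ℕ → ℕ} (b : ℕ) :
    cc q M j (b + 1) - cc q M i (b + 1) =
      (((j (b + 1) : ℤ) - i (b + 1) : ℤ) : ℝ) + (g q M b (j b) : ℝ) / q -
        (g q M b (i b) : ℝ) / q := by
  simp only [cc]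
  push_cast
  ring

theorem px_sub (ρ : ℝ) (q M K : ℕ) (i j : ℕ → ℕ) : px ρ q M K j - px ρ q M K i =
    H (ρ ^ 2) (fun t => cc q M j t - cc q M i t) K 0 := by
  unfold px
  rw [H_sub]

theorem py_sub (ρ : ℝ) (q M K : ℕ) (i j : ℕ → ℕ) : py ρ q M K j - py ρ q M K i =
    ρ * H (ρ ^ 2) (fun t => cc q M j t - cc q M i t) K 1 := by
  unfold py
  rw [H_sub]
  ring

/-- the parameters -/
structure Par (ρ : ℝ) (q M K : ℕ) : Prop where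
  prime : q.Prime
  big : 2 * K * M < q
  one : 1 ≤ M
  pos : 0 < ρ
  sq : ρ ^ 2 * (32 * q * M ^ 2) = 1

theorem Par.x64 {ρ : ℝ} {q M K : ℕ} (h : Par ρ q M K) : 64 * (M : ℝ) ^ 2 * ρ ^ 2 ≤ 1 := by
  have h1 := h.sq
  have h2 : (2 : ℝ) ≤ q := by exact_mod_cast h.prime.two_le
  have h3 : 0 ≤ ρ ^ 2 * (32 * (M : ℝ) ^ 2) := by positivity
  nlinarith

theorem Par.half {ρ : ℝ} {q M K : ℕ} (h : Par ρ q M K) : ρ ^ 2 ≤ 1 / 64 := by
  have h1 := h.x64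
  have h2 : (1 : ℝ) ≤ M := by exact_mod_cast h.one
  have h3 : (1 : ℝ) ≤ (M : ℝ) ^ 2 := by nlinarith
  nlinarith [sq_nonneg ρ]

theorem Par.le_one {ρ : ℝ} {q M K : ℕ} (h : Par ρ q M K) : ρ ≤ 1 := by
  have h1 := h.half
  nlinarith [h.pos]

theorem Par.x12 {ρ : ℝ} {q M K : ℕ} (h : Par ρ q M K) :
    12 * (M : ℝ) ^ 2 * ρ ^ 2 ≤ 1 / (2 * q) := by
  have h1 := h.sq
  have h2 : (0 : ℝ) < q := by exact_mod_cast h.prime.pos
  rw [le_div_iff₀ (by positivity)]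
  have h3 : 0 ≤ ρ ^ 2 * (8 * q * (M : ℝ) ^ 2) := by positivity
  nlinarith

/-- The determinant of three points, digit sequences `i, i'` first differing at the level `b`, and
`i, j` first differing at the level `a ≤ b`. -/
theorem key {ρ : ℝ} {q M K : ℕ} (hp : Par ρ q M K) {i i' j : ℕ → ℕ} (hi : ∀ t, i t < M)
    (hi' : ∀ t, i' t < M) (hj : ∀ t, j t < M) {a b : ℕ} (hab : a ≤ b) (hb : b < K)
    (h1 : ∀ t < b, i t = i' t) (h2 : i b ≠ i' b) (h3 : ∀ t < a, i t = j t) (h4 : i a ≠ j a)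
    (h5 : i' a ≠ j a) :
    ρ ^ (a + b + 1) * (1 / (2 * q)) ≤
      |(px ρ q M K i' - px ρ q M K i) * (py ρ q M K j - py ρ q M K i) -
        (px ρ q M K j - px ρ q M K i) * (py ρ q M K i' - py ρ q M K i)| := by
  have hq := hp.prime.pos
  have hx2 : ρ ^ 2 ≤ 1 / 2 := hp.half.trans (by norm_num)
  have hM : (1 : ℝ) ≤ M := by exact_mod_cast hp.one
  rw [px_sub, px_sub, py_sub, py_sub]
  obtain ⟨Δ, hΔ⟩ : ∃ Δ : ℕ → ℝ, Δ = fun t => cc q M i' t - cc q M i t := ⟨_, rfl⟩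
  obtain ⟨E, hE⟩ : ∃ E : ℕ → ℝ, E = fun t => cc q M j t - cc q M i t := ⟨_, rfl⟩
  rw [← hΔ, ← hE]
  have bΔ : ∀ t, |Δ t| ≤ M := fun t => by rw [hΔ]; exact cc_sub_bd hq hi' hi t
  have bE : ∀ t, |E t| ≤ M := fun t => by rw [hE]; exact cc_sub_bd hq hj hi t
  have zΔ : ∀ t < b, Δ t = 0 := fun t ht => by rw [hΔ]; exact cc_sub_zero h1 t ht
  have zE : ∀ t < a, E t = 0 := fun t ht => by rw [hE]; exact cc_sub_zero h3 t ht
  have eΔ : Δ b = (i' b : ℝ) - i b := by rw [hΔ]; exact cc_sub_at h1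
  have eE : E a = (j a : ℝ) - i a := by rw [hE]; exact cc_sub_at h3
  have nΔ : 1 ≤ |Δ b| := by
    rw [eΔ]
    have : (1 : ℤ) ≤ |(i' b : ℤ) - i b| := Int.one_le_abs (by omega)
    exact_mod_cast this
  have nE : 1 ≤ |E a| := by
    rw [eE]
    have : (1 : ℤ) ≤ |(j a : ℤ) - i a| := Int.one_le_abs (by omega)
    exact_mod_cast this
  have hmain : 1 / (q : ℝ) ≤ |Δ b * E (a + 1) - E a * Δ (b + 1)| := by
    have e1 : E (a + 1) = (((j (a + 1) : ℤ) - i (a + 1) : ℤ) : ℝ) + (g q M a (j a) : ℝ) / q -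
        (g q M a (i a) : ℝ) / q := by rw [hE]; exact cc_sub_next a
    have e2 : Δ (b + 1) = (((i' (b + 1) : ℤ) - i (b + 1) : ℤ) : ℝ) + (g q M b (i' b) : ℝ) / q -
        (g q M b (i b) : ℝ) / q := by rw [hΔ]; exact cc_sub_next b
    rw [eΔ, eE, e1, e2]
    refine main_ge hp.prime hp.big hab hb (hi a) (hj a) (hi b) (hi' b) h2 h4 ?_ _ _
    intro h
    subst h
    exact ⟨rfl, h5⟩
  have hρ := hp.pos
  have hsame : ∀ u v u' v' : ℝ, |u| ≤ 2 * (M : ℝ) → |v| ≤ 2 * (M : ℝ) → |u'| ≤ 2 * (M : ℝ) →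
      |v'| ≤ 2 * (M : ℝ) → 1 / (2 * (q : ℝ)) ≤
      |(Δ b + ρ ^ 2 * u) * (E (a + 1) + ρ ^ 2 * v') -
        (E a + ρ ^ 2 * u') * (Δ (b + 1) + ρ ^ 2 * v)| := fun u v u' v' hu hv hu' hv' =>
    core_same (sq_nonneg ρ) hx2 hp.x12 (bΔ b) (bΔ (b + 1)) (bE a) (bE (a + 1)) hu hv hu' hv' hmain
  have hdiff : ∀ u v u' v' : ℝ, |u| ≤ 2 * (M : ℝ) → |v| ≤ 2 * (M : ℝ) → |u'| ≤ 2 * (M : ℝ) →
      |v'| ≤ 2 * (M : ℝ) → 1 / 2 ≤
      |ρ ^ 2 * ((Δ (b + 1) + ρ ^ 2 * v) * (E (a + 1) + ρ ^ 2 * v')) -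
        (E a + ρ ^ 2 * u') * (Δ b + ρ ^ 2 * u)| := fun u v u' v' hu hv hu' hv' =>
    core_diff hM (sq_nonneg ρ) hp.x64 nΔ nE (bΔ (b + 1)) (bE (a + 1)) hu hv hu' hv'
  have hweak : ρ ^ (a + b + 1) * (1 / (2 * (q : ℝ))) ≤ ρ ^ (a + b) * (1 / 2) := by
    have h6 : ρ ^ (a + b + 1) ≤ ρ ^ (a + b) :=
      pow_le_pow_of_le_one hρ.le hp.le_one (by omega)
    have h7 : 1 / (2 * (q : ℝ)) ≤ 1 / 2 := by
      apply one_div_le_one_div_of_le (by norm_num)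
      have : (1 : ℝ) ≤ q := by exact_mod_cast hq
      linarith
    exact mul_le_mul h6 h7 (by positivity) (by positivity)
  rcases Nat.even_or_odd a with ha | ha <;> rcases Nat.even_or_odd b with hbb | hbb
  · obtain ⟨u, v, hu, hv, e1, e2⟩ := even_uv hx2 bΔ hb zΔ hbb
    obtain ⟨u', v', hu', hv', e3, e4⟩ := even_uv hx2 bE (lt_of_le_of_lt hab hb) zE ha
    rw [e1, e2, e3, e4]
    have e : ρ ^ b * (Δ b + ρ ^ 2 * u) * (ρ ^ (a + 1) * (E (a + 1) + ρ ^ 2 * v')) -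
        ρ ^ a * (E a + ρ ^ 2 * u') * (ρ ^ (b + 1) * (Δ (b + 1) + ρ ^ 2 * v)) =
        ρ ^ (a + b + 1) * ((Δ b + ρ ^ 2 * u) * (E (a + 1) + ρ ^ 2 * v') -
        (E a + ρ ^ 2 * u') * (Δ (b + 1) + ρ ^ 2 * v)) := by ring
    rw [e, abs_mul, abs_of_pos (pow_pos hρ _)]
    exact mul_le_mul_of_nonneg_left (hsame u v u' v' hu hv hu' hv') (by positivity)
  · obtain ⟨u, v, hu, hv, e1, e2⟩ := odd_uv hx2 bΔ hb zΔ hbb
    obtain ⟨u', v', hu', hv', e3, e4⟩ := even_uv hx2 bE (lt_of_le_of_lt hab hb) zE ha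
    rw [e1, e2, e3, e4]
    have e : ρ ^ (b + 1) * (Δ (b + 1) + ρ ^ 2 * v) * (ρ ^ (a + 1) * (E (a + 1) + ρ ^ 2 * v')) -
        ρ ^ a * (E a + ρ ^ 2 * u') * (ρ ^ b * (Δ b + ρ ^ 2 * u)) =
        ρ ^ (a + b) * (ρ ^ 2 * ((Δ (b + 1) + ρ ^ 2 * v) * (E (a + 1) + ρ ^ 2 * v')) -
        (E a + ρ ^ 2 * u') * (Δ b + ρ ^ 2 * u)) := by ring
    rw [e, abs_mul, abs_of_pos (pow_pos hρ _)]
    exact hweak.trans (mul_le_mul_of_nonneg_left (hdiff u v u' v' hu hv hu' hv') (by positivity))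
  · obtain ⟨u, v, hu, hv, e1, e2⟩ := even_uv hx2 bΔ hb zΔ hbb
    obtain ⟨u', v', hu', hv', e3, e4⟩ := odd_uv hx2 bE (lt_of_le_of_lt hab hb) zE ha
    rw [e1, e2, e3, e4]
    have e : ρ ^ b * (Δ b + ρ ^ 2 * u) * (ρ ^ a * (E a + ρ ^ 2 * u')) -
        ρ ^ (a + 1) * (E (a + 1) + ρ ^ 2 * v') * (ρ ^ (b + 1) * (Δ (b + 1) + ρ ^ 2 * v)) =
        -(ρ ^ (a + b) * (ρ ^ 2 * ((Δ (b + 1) + ρ ^ 2 * v) * (E (a + 1) + ρ ^ 2 * v')) -
        (E a + ρ ^ 2 * u') * (Δ b + ρ ^ 2 * u))) := by ring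
    rw [e, abs_neg, abs_mul, abs_of_pos (pow_pos hρ _)]
    exact hweak.trans (mul_le_mul_of_nonneg_left (hdiff u v u' v' hu hv hu' hv') (by positivity))
  · obtain ⟨u, v, hu, hv, e1, e2⟩ := odd_uv hx2 bΔ hb zΔ hbb
    obtain ⟨u', v', hu', hv', e3, e4⟩ := odd_uv hx2 bE (lt_of_le_of_lt hab hb) zE ha
    rw [e1, e2, e3, e4]
    have e : ρ ^ (b + 1) * (Δ (b + 1) + ρ ^ 2 * v) * (ρ ^ a * (E a + ρ ^ 2 * u')) -
        ρ ^ (a + 1) * (E (a + 1) + ρ ^ 2 * v') * (ρ ^ b * (Δ b + ρ ^ 2 * u)) =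
        -(ρ ^ (a + b + 1) * ((Δ b + ρ ^ 2 * u) * (E (a + 1) + ρ ^ 2 * v') -
        (E a + ρ ^ 2 * u') * (Δ (b + 1) + ρ ^ 2 * v))) := by ring
    rw [e, abs_neg, abs_mul, abs_of_pos (pow_pos hρ _)]
    exact mul_le_mul_of_nonneg_left (hsame u v u' v' hu hv hu' hv') (by positivity)

/-- the size of a difference, digit sequences agreeing below `b` -/
theorem side {ρ : ℝ} {q M K : ℕ} (hp : Par ρ q M K) {i i' : ℕ → ℕ} (hi : ∀ t, i t < M)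
    (hi' : ∀ t, i' t < M) {b : ℕ} (hb : b < K) (h1 : ∀ t < b, i t = i' t) :
    |px ρ q M K i' - px ρ q M K i| + |py ρ q M K i' - py ρ q M K i| ≤ ρ ^ b * (4 * M) := by
  have hq := hp.prime.pos
  have hx2 : ρ ^ 2 ≤ 1 / 2 := hp.half.trans (by norm_num)
  have hM : (1 : ℝ) ≤ M := by exact_mod_cast hp.one
  have hρ := hp.pos
  rw [px_sub, py_sub]
  obtain ⟨Δ, hΔ⟩ : ∃ Δ : ℕ → ℝ, Δ = fun t => cc q M i' t - cc q M i t := ⟨_, rfl⟩
  rw [← hΔ]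
  have bΔ : ∀ t, |Δ t| ≤ M := fun t => by rw [hΔ]; exact cc_sub_bd hq hi' hi t
  have zΔ : ∀ t < b, Δ t = 0 := fun t ht => by rw [hΔ]; exact cc_sub_zero h1 t ht
  have up : ∀ {z w : ℝ}, |z| ≤ M → |w| ≤ 2 * M → |z + ρ ^ 2 * w| ≤ 2 * M := by
    intro z w hz hw
    have h2 : |ρ ^ 2 * w| ≤ 1 / 2 * (2 * M) := by
      rw [abs_mul, abs_of_nonneg (sq_nonneg ρ)]
      exact mul_le_mul hx2 hw (abs_nonneg _) (by norm_num)
    have := abs_add_le z (ρ ^ 2 * w)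
    linarith
  have hle : ρ ^ (b + 1) ≤ ρ ^ b := pow_le_pow_of_le_one hρ.le hp.le_one (by omega)
  have fin : ∀ u v : ℝ, |u| ≤ 2 * (M : ℝ) → |v| ≤ 2 * (M : ℝ) →
      |ρ ^ b * (Δ b + ρ ^ 2 * u)| + |ρ ^ (b + 1) * (Δ (b + 1) + ρ ^ 2 * v)| ≤
        ρ ^ b * (4 * M) := by
    intro u v hu hv
    rw [abs_mul, abs_mul, abs_of_pos (pow_pos hρ _), abs_of_pos (pow_pos hρ _)]
    have h6 : ρ ^ b * |Δ b + ρ ^ 2 * u| ≤ ρ ^ b * (2 * M) :=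
      mul_le_mul_of_nonneg_left (up (bΔ b) hu) (by positivity)
    have h7 : ρ ^ (b + 1) * |Δ (b + 1) + ρ ^ 2 * v| ≤ ρ ^ b * (2 * M) :=
      mul_le_mul hle (up (bΔ (b + 1)) hv) (abs_nonneg _) (by positivity)
    linarith
  rcases Nat.even_or_odd b with hbb | hbb
  · obtain ⟨u, v, hu, hv, e1, e2⟩ := even_uv hx2 bΔ hb zΔ hbb
    rw [e1, e2]
    exact fin u v hu hv
  · obtain ⟨u, v, hu, hv, e1, e2⟩ := odd_uv hx2 bΔ hb zΔ hbb
    rw [e1, e2, add_comm]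
    exact fin u v hu hv

/-- different digit sequences give different points -/
theorem inj {ρ : ℝ} {q M K : ℕ} (hp : Par ρ q M K) {i i' : ℕ → ℕ} (hi : ∀ t, i t < M)
    (hi' : ∀ t, i' t < M) {b : ℕ} (hb : b < K) (h1 : ∀ t < b, i t = i' t) (h2 : i b ≠ i' b) :
    px ρ q M K i' ≠ px ρ q M K i ∨ py ρ q M K i' ≠ py ρ q M K i := by
  have hq := hp.prime.pos
  have hx2 : ρ ^ 2 ≤ 1 / 2 := hp.half.trans (by norm_num)
  have hM : (1 : ℝ) ≤ M := by exact_mod_cast hp.one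
  have hρ := hp.pos
  rw [← sub_ne_zero, ← sub_ne_zero (a := py ρ q M K i'), px_sub, py_sub]
  obtain ⟨Δ, hΔ⟩ : ∃ Δ : ℕ → ℝ, Δ = fun t => cc q M i' t - cc q M i t := ⟨_, rfl⟩
  rw [← hΔ]
  have bΔ : ∀ t, |Δ t| ≤ M := fun t => by rw [hΔ]; exact cc_sub_bd hq hi' hi t
  have zΔ : ∀ t < b, Δ t = 0 := fun t ht => by rw [hΔ]; exact cc_sub_zero h1 t ht
  have eΔ : Δ b = (i' b : ℝ) - i b := by rw [hΔ]; exact cc_sub_at h1
  have nΔ : 1 ≤ |Δ b| := by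
    rw [eΔ]
    have : (1 : ℤ) ≤ |(i' b : ℤ) - i b| := Int.one_le_abs (by omega)
    exact_mod_cast this
  have low : ∀ w : ℝ, |w| ≤ 2 * M → ρ ^ b * (Δ b + ρ ^ 2 * w) ≠ 0 := by
    intro w hw
    apply mul_ne_zero (pow_pos hρ _).ne'
    intro h0
    have h6 : |ρ ^ 2 * w| ≤ 1 / 32 := by
      rw [abs_mul, abs_of_nonneg (sq_nonneg ρ)]
      have h7 : ρ ^ 2 * |w| ≤ ρ ^ 2 * (2 * M) := mul_le_mul_of_nonneg_left hw (sq_nonneg ρ)
      have h8 := hp.x64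
      have h9 : ρ ^ 2 * M ≤ ρ ^ 2 * (M : ℝ) ^ 2 :=
        mul_le_mul_of_nonneg_left (by nlinarith) (sq_nonneg ρ)
      linarith
    have h7 : Δ b = -(ρ ^ 2 * w) := by linarith
    rw [h7, abs_neg] at nΔ
    linarith
  rcases Nat.even_or_odd b with hbb | hbb
  · obtain ⟨u, v, hu, hv, e1, e2⟩ := even_uv hx2 bΔ hb zΔ hbb
    left
    rw [e1]
    exact low u hu
  · obtain ⟨u, v, hu, hv, e1, e2⟩ := odd_uv hx2 bΔ hb zΔ hbb
    right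
    rw [e1]
    exact low u hu

theorem px_bd {ρ : ℝ} {q M K : ℕ} (hp : Par ρ q M K) {i : ℕ → ℕ} (hi : ∀ t, i t < M) :
    |px ρ q M K i| ≤ 2 * M := by
  have hx2 : ρ ^ 2 ≤ 1 / 2 := hp.half.trans (by norm_num)
  refine H_abs (sq_nonneg ρ) hx2 (fun t => ?_) _ _
  have := cc_bd hp.prime.pos hi t
  rw [abs_of_nonneg this.1]
  exact this.2

theorem py_bd {ρ : ℝ} {q M K : ℕ} (hp : Par ρ q M K) {i : ℕ → ℕ} (hi : ∀ t, i t < M) :
    |py ρ q M K i| ≤ 2 * M := by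
  have hx2 : ρ ^ 2 ≤ 1 / 2 := hp.half.trans (by norm_num)
  have h1 : |H (ρ ^ 2) (cc q M i) K 1| ≤ 2 * M := by
    refine H_abs (sq_nonneg ρ) hx2 (fun t => ?_) _ _
    have := cc_bd hp.prime.pos hi t
    rw [abs_of_nonneg this.1]
    exact this.2
  unfold py
  rw [abs_mul, abs_of_pos hp.pos]
  calc ρ * |H (ρ ^ 2) (cc q M i) K 1| ≤ 1 * (2 * M) :=
      mul_le_mul hp.le_one h1 (abs_nonneg _) (by norm_num)
    _ = 2 * M := one_mul _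

end Pool.Agent.EDA
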