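import Pool.Agent.EDA.Points
import Pool.Agent.EDW.Disk

/-!
# From points to disks (MP_1780a9_co)

`admissible_of`: points in the square `[-1/2, 1/2]^2` such that no three of them are within `r` of
a line (in the form `Wide` of a determinant inequality, for one labelling of the three points) are
the centres of admissible disks. `three`: any three different digit sequences can be labelled as in
`key`.
-/

namespace Pool.Agent.EDA

open Pool.Agent.EDW

/-- the triangle `P Q R` is too wide to be within `r` of a line -/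
def Wide (r x0 y0 x1 y1 x2 y2 : ℝ) : Prop :=
  2 * r * (|x1 - x0| + |y1 - y0| + (|x2 - x0| + |y2 - y0|)) <
    |(x1 - x0) * (y2 - y0) - (x2 - x0) * (y1 - y0)|

theorem dot_le {v0 v1 L s0 s1 : ℝ} (hL : 0 < L) (hL2 : L ^ 2 = v0 ^ 2 + v1 ^ 2) :
    |v0 * s0 + v1 * s1| ≤ L * (|s0| + |s1|) := by
  have h0 : |v0| ≤ L := by
    apply abs_le_of_sq_le_sq _ hL.le
    nlinarith [sq_nonneg v1]
  have h1 : |v1| ≤ L := by
    apply abs_le_of_sq_le_sq _ hL.le
    nlinarith [sq_nonneg v0]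
  calc |v0 * s0 + v1 * s1| ≤ |v0 * s0| + |v1 * s1| := abs_add_le _ _
    _ = |v0| * |s0| + |v1| * |s1| := by rw [abs_mul, abs_mul]
    _ ≤ L * |s0| + L * |s1| := add_le_add (mul_le_mul_of_nonneg_right h0 (abs_nonneg _))
        (mul_le_mul_of_nonneg_right h1 (abs_nonneg _))
    _ = L * (|s0| + |s1|) := by ring

theorem near_core {v0 v1 L ρ q0 q1 r0 r1 : ℝ} (hL : 0 < L) (hL2 : L ^ 2 = v0 ^ 2 + v1 ^ 2)
    (hhq : |-v1 * q0 + v0 * q1| ≤ 2 * (ρ * L))
    (hhr : |-v1 * r0 + v0 * r1| ≤ 2 * (ρ * L)) :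
    |q0 * r1 - r0 * q1| ≤ 2 * ρ * (|q0| + |q1| + (|r0| + |r1|)) := by
  have e : L ^ 2 * (q0 * r1 - r0 * q1) = (v0 * q0 + v1 * q1) * (-v1 * r0 + v0 * r1) -
      (v0 * r0 + v1 * r1) * (-v1 * q0 + v0 * q1) := by
    rw [hL2]
    ring
  have h1 : L ^ 2 * |q0 * r1 - r0 * q1| ≤
      L ^ 2 * (2 * ρ * (|q0| + |q1| + (|r0| + |r1|))) := by
    have e2 : L ^ 2 * |q0 * r1 - r0 * q1| = |L ^ 2 * (q0 * r1 - r0 * q1)| := by
      rw [abs_mul, abs_of_pos (by positivity : 0 < L ^ 2)]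
    rw [e2, e]
    refine (abs_sub _ _).trans ?_
    rw [abs_mul, abs_mul]
    have h2 := mul_le_mul (dot_le (s0 := q0) (s1 := q1) hL hL2) hhr (abs_nonneg _)
      (by positivity)
    have h3 := mul_le_mul (dot_le (s0 := r0) (s1 := r1) hL hL2) hhq (abs_nonneg _)
      (by positivity)
    calc _ ≤ L * (|q0| + |q1|) * (2 * (ρ * L)) + L * (|r0| + |r1|) * (2 * (ρ * L)) :=
          add_le_add h2 h3
      _ = L ^ 2 * (2 * ρ * (|q0| + |q1| + (|r0| + |r1|))) := by ring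
  exact le_of_mul_le_mul_left h1 (by positivity)

theorem not_wide {v0 v1 a0 a1 L r x0 y0 x1 y1 x2 y2 : ℝ} (hL : 0 < L)
    (hL2 : L ^ 2 = v0 ^ 2 + v1 ^ 2)
    (h0 : |-v1 * (x0 - a0) + v0 * (y0 - a1)| ≤ r * L)
    (h1 : |-v1 * (x1 - a0) + v0 * (y1 - a1)| ≤ r * L)
    (h2 : |-v1 * (x2 - a0) + v0 * (y2 - a1)| ≤ r * L) : ¬ Wide r x0 y0 x1 y1 x2 y2 := by
  have hsub : ∀ {x y : ℝ}, |-v1 * (x - a0) + v0 * (y - a1)| ≤ r * L →
      |-v1 * (x - x0) + v0 * (y - y0)| ≤ 2 * (r * L) := by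
    intro x y h
    have e : -v1 * (x - x0) + v0 * (y - y0) = (-v1 * (x - a0) + v0 * (y - a1)) -
        (-v1 * (x0 - a0) + v0 * (y0 - a1)) := by ring
    rw [e]
    refine (abs_sub _ _).trans ?_
    linarith
  have h := near_core hL hL2 (hsub h1) (hsub h2)
  unfold Wide
  exact not_lt.2 h

theorem admissible_of {ι : Type} [Fintype ι] {X Y : ι → ℝ} {r : ℝ} (hr : 0 < r)
    (hr4 : r ≤ 1 / 4) (hX : ∀ j, |X j| ≤ 1 / 2) (hY : ∀ j, |Y j| ≤ 1 / 2)
    (hinj : ∀ j k, j ≠ k → X k ≠ X j ∨ Y k ≠ Y j)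
    (hW : ∀ j k l, j ≠ k → j ≠ l → k ≠ l → Wide r (X j) (Y j) (X k) (Y k) (X l) (Y l) ∨
      Wide r (X j) (Y j) (X l) (Y l) (X k) (Y k) ∨ Wide r (X k) (Y k) (X l) (Y l) (X j) (Y j))
    {n k : ℕ} (hn : n ≤ Fintype.card ι) (hk : 2 ≤ k) : Admissible k n r := by
  obtain ⟨e⟩ : Nonempty (Fin n ↪ ι) :=
    Function.Embedding.nonempty_of_card_le (by rwa [Fintype.card_fin])
  refine ⟨hr, fun i => WithLp.toLp 2 ![X (e i), Y (e i)], ?_, ?_, ?_⟩
  · intro i j hij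
    by_contra hne
    have h1 : e i ≠ e j := fun h2 => hne (e.injective h2)
    have h2 : (WithLp.toLp 2 ![X (e i), Y (e i)] : Plane) 0 =
      (WithLp.toLp 2 ![X (e j), Y (e j)] : Plane) 0 := congrArg (fun z : Plane => z 0) hij
    have h3 : (WithLp.toLp 2 ![X (e i), Y (e i)] : Plane) 1 =
      (WithLp.toLp 2 ![X (e j), Y (e j)] : Plane) 1 := congrArg (fun z : Plane => z 1) hij
    simp only [Matrix.cons_val_zero, Matrix.cons_val_one] at h2 h3
    rcases hinj _ _ h1 with h | h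
    · exact h h2.symm
    · exact h h3.symm
  · intro i
    apply Metric.closedBall_subset_closedBall'
    rw [dist_zero_right]
    have h1 : ‖(WithLp.toLp 2 ![X (e i), Y (e i)] : Plane)‖ ≤ 3 / 4 := by
      apply le_of_sq_le_sq _ (by norm_num)
      rw [plane_normsq]
      simp only [Matrix.cons_val_zero, Matrix.cons_val_one]
      have hX2 : X (e i) ^ 2 ≤ (1 / 2) ^ 2 := by
        rw [← sq_abs]
        exact pow_le_pow_left₀ (abs_nonneg _) (hX _) 2
      have hY2 : Y (e i) ^ 2 ≤ (1 / 2) ^ 2 := by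
        rw [← sq_abs]
        exact pow_le_pow_left₀ (abs_nonneg _) (hY _) 2
      nlinarith
    linarith
  · rintro l ⟨a, v, hv, rfl⟩
    refine le_trans ?_ hk
    by_contra hcon
    push Not at hcon
    rw [Set.two_lt_ncard_iff (Set.toFinite _)] at hcon
    obtain ⟨P, Q, R, hP, hQ, hR, hPQ, hPR, hQR⟩ := hcon
    obtain ⟨zP, hzP, tP, rfl⟩ := hP
    obtain ⟨zQ, hzQ, tQ, rfl⟩ := hQ
    obtain ⟨zR, hzR, tR, rfl⟩ := hR
    have nP := disk_near (Metric.mem_closedBall.1 hzP)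
    have nQ := disk_near (Metric.mem_closedBall.1 hzQ)
    have nR := disk_near (Metric.mem_closedBall.1 hzR)
    simp only [Matrix.cons_val_zero, Matrix.cons_val_one] at nP nQ nR
    have hL : 0 < ‖v‖ := norm_pos_iff.2 hv
    rcases hW (e P) (e Q) (e R) (fun h2 => hPQ (e.injective h2))
      (fun h2 => hPR (e.injective h2)) (fun h2 => hQR (e.injective h2)) with h | h | h
    · exact not_wide hL (plane_normsq v) nP nQ nR h
    · exact not_wide hL (plane_normsq v) nP nR nQ h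
    · exact not_wide hL (plane_normsq v) nQ nR nP h

/-- `i, i'` first differ at `b`; `i, j` and `i', j` first differ at `a ≤ b` -/
def Lab (K : ℕ) (i i' j : ℕ → ℕ) : Prop :=
  ∃ a b, a ≤ b ∧ b < K ∧ (∀ t < b, i t = i' t) ∧ i b ≠ i' b ∧ (∀ t < a, i t = j t) ∧
    i a ≠ j a ∧ i' a ≠ j a

theorem three {K : ℕ} {i i' j : ℕ → ℕ} {b1 b2 b3 : ℕ} (h1 : b1 < K)
    (z1 : ∀ t < b1, i t = i' t) (n1 : i b1 ≠ i' b1) (h2 : b2 < K) (z2 : ∀ t < b2, i t = j t)
    (n2 : i b2 ≠ j b2) (h3 : b3 < K) (z3 : ∀ t < b3, i' t = j t) (n3 : i' b3 ≠ j b3) :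
    Lab K i i' j ∨ Lab K i j i' ∨ Lab K i' j i := by
  rcases lt_trichotomy b1 b2 with h | h | h
  · right
    left
    exact ⟨b1, b2, h.le, h2, z2, n2, z1, n1, fun h5 => n1 ((z2 b1 h).trans h5)⟩
  · subst h
    by_cases h6 : i' b1 = j b1
    · right
      right
      refine ⟨b1, b3, ?_, h3, z3, n3, fun t ht => (z1 t ht).symm, Ne.symm n1,
        fun h7 => n2 h7.symm⟩
      by_contra hlt
      have h8 : b3 < b1 := by omega
      exact n3 ((z1 b3 h8).symm.trans (z2 b3 h8))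
    · left
      exact ⟨b1, b1, le_rfl, h1, z1, n1, z2, n2, h6⟩
  · left
    exact ⟨b2, b1, h.le, h1, z1, n1, z2, n2, fun h5 => n2 ((z1 b2 h).trans h5)⟩

theorem Lab.wide {ρ : ℝ} {q M K : ℕ} (hp : Par ρ q M K) {i i' j : ℕ → ℕ} (hi : ∀ t, i t < M)
    (hi' : ∀ t, i' t < M) (hj : ∀ t, j t < M) (h : Lab K i i' j) :
    Wide (ρ ^ K / (256 * q * M ^ 2)) (px ρ q M K i / (4 * M)) (py ρ q M K i / (4 * M))
      (px ρ q M K i' / (4 * M)) (py ρ q M K i' / (4 * M))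
      (px ρ q M K j / (4 * M)) (py ρ q M K j / (4 * M)) := by
  obtain ⟨a, b, hab, hb, z1, n1, z2, n2, n3⟩ := h
  have hkey := key hp hi hi' hj hab hb z1 n1 z2 n2 n3
  have s1 := side hp hi hi' hb z1
  have s2 := side hp hi hj (lt_of_le_of_lt hab hb) z2
  have hρ := hp.pos
  have hM : (1 : ℝ) ≤ M := by exact_mod_cast hp.one
  have hM0 : (0 : ℝ) < M := by linarith
  have hq0 : (0 : ℝ) < q := by exact_mod_cast hp.prime.pos
  unfold Wide
  rw [← sub_div, ← sub_div, ← sub_div, ← sub_div]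
  have h4 : (0 : ℝ) < 4 * M := by positivity
  rw [abs_div, abs_div, abs_div, abs_div, abs_of_pos h4]
  have e1 : |(px ρ q M K i' - px ρ q M K i) / (4 * M) * ((py ρ q M K j - py ρ q M K i) / (4 * M)) -
      (px ρ q M K j - px ρ q M K i) / (4 * M) * ((py ρ q M K i' - py ρ q M K i) / (4 * M))| =
      |(px ρ q M K i' - px ρ q M K i) * (py ρ q M K j - py ρ q M K i) -
        (px ρ q M K j - px ρ q M K i) * (py ρ q M K i' - py ρ q M K i)| / (16 * M ^ 2) := by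
    have e0 : ∀ Z : ℝ, |Z| / (16 * M ^ 2) = |Z / (16 * (M : ℝ) ^ 2)| := by
      intro Z
      rw [abs_div, abs_of_pos (by positivity : (0 : ℝ) < 16 * (M : ℝ) ^ 2)]
    rw [e0]
    congr 1
    field_simp
    ring
  rw [e1]
  obtain ⟨S1, hS1⟩ : ∃ S1, S1 = |px ρ q M K i' - px ρ q M K i| +
    |py ρ q M K i' - py ρ q M K i| := ⟨_, rfl⟩
  obtain ⟨S2, hS2⟩ : ∃ S2, S2 = |px ρ q M K j - px ρ q M K i| +
    |py ρ q M K j - py ρ q M K i| := ⟨_, rfl⟩
  rw [← hS1] at s1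
  rw [← hS2] at s2
  have e2 : |px ρ q M K i' - px ρ q M K i| / (4 * M) + |py ρ q M K i' - py ρ q M K i| / (4 * M) +
      (|px ρ q M K j - px ρ q M K i| / (4 * M) + |py ρ q M K j - py ρ q M K i| / (4 * M)) =
      (S1 + S2) / (4 * M) := by
    rw [hS1, hS2]
    ring
  rw [e2]
  have hpow : ρ ^ b ≤ ρ ^ a := pow_le_pow_of_le_one hρ.le hp.le_one hab
  have hS : S1 + S2 ≤ 8 * M * ρ ^ a := by
    have : ρ ^ b * (4 * (M : ℝ)) ≤ ρ ^ a * (4 * M) :=
      mul_le_mul_of_nonneg_right hpow (by positivity)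
    linarith
  have hK : ρ ^ K ≤ ρ ^ (b + 1) := pow_le_pow_of_le_one hρ.le hp.le_one (by omega)
  have hfin : 2 * (ρ ^ K / (256 * q * M ^ 2)) * ((8 * M * ρ ^ a) / (4 * M)) <
      ρ ^ (a + b + 1) * (1 / (2 * q)) / (16 * M ^ 2) := by
    have e3 : 2 * (ρ ^ K / (256 * q * M ^ 2)) * ((8 * M * ρ ^ a) / (4 * M)) =
        ρ ^ K * ρ ^ a * (1 / (64 * q * M ^ 2)) := by
      field_simp
      norm_num
    have e4 : ρ ^ (a + b + 1) * (1 / (2 * q)) / (16 * (M : ℝ) ^ 2) =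
        ρ ^ (b + 1) * ρ ^ a * (1 / (32 * q * M ^ 2)) := by
      rw [show a + b + 1 = (b + 1) + a by omega, pow_add ρ (b + 1) a]
      field_simp
      norm_num
    rw [e3, e4]
    have h5 : ρ ^ K * ρ ^ a ≤ ρ ^ (b + 1) * ρ ^ a :=
      mul_le_mul_of_nonneg_right hK (by positivity)
    have h6 : 1 / (64 * q * (M : ℝ) ^ 2) < 1 / (32 * q * (M : ℝ) ^ 2) := by
      apply one_div_lt_one_div_of_lt (by positivity)
      have : 0 < q * (M : ℝ) ^ 2 := by positivity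
      nlinarith
    exact mul_lt_mul' h5 h6 (by positivity) (by positivity)
  have hlow : 2 * (ρ ^ K / (256 * q * (M : ℝ) ^ 2)) * ((S1 + S2) / (4 * M)) ≤
      2 * (ρ ^ K / (256 * q * M ^ 2)) * ((8 * M * ρ ^ a) / (4 * M)) := by
    apply mul_le_mul_of_nonneg_left _ (by positivity)
    exact div_le_div_of_nonneg_right hS h4.le
  exact lt_of_le_of_lt hlow (lt_of_lt_of_le hfin (div_le_div_of_nonneg_right hkey (by positivity)))

/-- extension of a finite digit sequence by zeros -/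
def ex {K M : ℕ} (f : Fin K → Fin M) (t : ℕ) : ℕ := if h : t < K then (f ⟨t, h⟩ : ℕ) else 0

theorem ex_lt {K M : ℕ} (hM : 1 ≤ M) (f : Fin K → Fin M) (t : ℕ) : ex f t < M := by
  unfold ex
  split_ifs with h
  · exact (f ⟨t, h⟩).isLt
  · omega

theorem ex_diff {K M : ℕ} {f f' : Fin K → Fin M} (h : f ≠ f') :
    ∃ b, b < K ∧ (∀ t < b, ex f t = ex f' t) ∧ ex f b ≠ ex f' b := by
  classical
  obtain ⟨s, hs⟩ := Function.ne_iff.1 h
  have hex : ∃ b, b < K ∧ ex f b ≠ ex f' b := by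
    refine ⟨s, s.isLt, ?_⟩
    unfold ex
    simp only [s.isLt, dif_pos]
    intro h0
    exact hs (Fin.ext h0)
  refine ⟨Nat.find hex, (Nat.find_spec hex).1, ?_, (Nat.find_spec hex).2⟩
  intro t ht
  have h1 := Nat.find_min hex ht
  by_contra h2
  exact h1 ⟨ht.trans (Nat.find_spec hex).1, h2⟩

theorem admissible_par {ρ : ℝ} {q M K : ℕ} (hp : Par ρ q M K) {n k : ℕ} (hn : n ≤ M ^ K)
    (hk : 2 ≤ k) : Admissible k n (ρ ^ K / (256 * q * M ^ 2)) := by
  have hM : (1 : ℝ) ≤ M := by exact_mod_cast hp.one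
  have hM0 : (0 : ℝ) < M := by linarith
  have hq1 : (1 : ℝ) ≤ q := by exact_mod_cast hp.prime.pos
  have hq0 : (0 : ℝ) < q := by linarith
  have hρ := hp.pos
  have hb : ∀ z : ℝ, |z| ≤ 2 * M → |z / (4 * M)| ≤ 1 / 2 := by
    intro z hz
    rw [abs_div, abs_of_pos (by positivity : (0 : ℝ) < 4 * M), div_le_iff₀ (by positivity)]
    linarith
  refine admissible_of (ι := Fin K → Fin M)
    (X := fun f => px ρ q M K (ex f) / (4 * M)) (Y := fun f => py ρ q M K (ex f) / (4 * M))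
    (by positivity) ?_ (fun f => hb _ (px_bd hp (ex_lt hp.one f)))
    (fun f => hb _ (py_bd hp (ex_lt hp.one f))) ?_ ?_ ?_ hk
  · rw [div_le_div_iff₀ (by positivity) (by norm_num)]
    have h1 : ρ ^ K ≤ 1 := pow_le_one₀ hρ.le hp.le_one
    have h2 : 1 ≤ q * (M : ℝ) ^ 2 := one_le_mul_of_one_le_of_one_le hq1 (one_le_pow₀ hM)
    linarith
  · intro f f' hff
    obtain ⟨b, hb, z, hne⟩ := ex_diff hff
    have h4 : (4 * (M : ℝ)) ≠ 0 := by positivity
    rcases inj hp (ex_lt hp.one f) (ex_lt hp.one f') hb z hne with h | h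
    · left
      exact fun h0 => h ((div_left_inj' h4).1 h0)
    · right
      exact fun h0 => h ((div_left_inj' h4).1 h0)
  · intro f f' l h1 h2 h3
    obtain ⟨b1, k1, z1, m1⟩ := ex_diff h1
    obtain ⟨b2, k2, z2, m2⟩ := ex_diff h2
    obtain ⟨b3, k3, z3, m3⟩ := ex_diff h3
    rcases three k1 z1 m1 k2 z2 m2 k3 z3 m3 with h | h | h
    · left
      exact h.wide hp (ex_lt hp.one f) (ex_lt hp.one f') (ex_lt hp.one l)
    · right
      left
      exact h.wide hp (ex_lt hp.one f) (ex_lt hp.one l) (ex_lt hp.one f')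
    · right
      right
      exact h.wide hp (ex_lt hp.one f') (ex_lt hp.one l) (ex_lt hp.one f)
  · simpa using hn

end Pool.Agent.EDA
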